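import Pool.Agent.Lib.MP_75b31c_lc.N40.Iface

set_option autoImplicit false

/-!
# Module VAR: the scaled variance inequality (helper92)
-/

namespace Pool.Agent.Lib.MP_75b31c_lc.N40.H92

open MeasureTheory Finset Pool.Agent.Lib.MP_75b31c_lc.H40 Pool.Agent.Lib.MP_75b31c_lc.H74

/-- The variance of the sum of the shifts of an indicator is at most `8 N β`. -/
theorem variance_scaled (Γ : Type) [Group Γ] [Countable Γ] (γ : ℕ → Γ)
    (hγ : Function.Injective (FreeGroup.lift γ : FreeGroup ℕ →* Γ)) (C : Set (Γ → Bool))
    (hC : MeasurableSet C) (N : ℕ) :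
    ∫ x, (∑ j ∈ range N, (C.indicator (fun _ => (1 : ℝ)) (shift (γ j) x)
      - (coinPi Γ).real C)) ^ 2 ∂(coinPi Γ) ≤ 8 * N * (coinPi Γ).real C := by
  classical
  set μ := coinPi Γ with hμ
  have hNr : (0 : ℝ) ≤ N := Nat.cast_nonneg _
  have hind : ∀ (D : Set (Γ → Bool)) (x : Γ → Bool), 0 ≤ D.indicator (fun _ => (1 : ℝ)) x ∧
      D.indicator (fun _ => (1 : ℝ)) x ≤ 1 := by
    intro D x
    by_cases hx : x ∈ D <;> simp [hx]
  have hre : ∀ D : Set (Γ → Bool), 0 ≤ μ.real D ∧ μ.real D ≤ 1 := fun D =>
    ⟨measureReal_nonneg, measureReal_le_one⟩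
  set f : (Γ → Bool) → ℝ := fun x => C.indicator (fun _ => (1 : ℝ)) x - μ.real C with hf
  have hfm : Measurable f := (measurable_const.indicator hC).sub measurable_const
  have hfb : ∀ x, |f x| ≤ 1 := by
    intro x
    rw [abs_le]
    simp only [hf]
    constructor <;> linarith [(hind C x).1, (hind C x).2, (hre C).1, (hre C).2]
  have key : ∀ η : ℝ, 0 < η → ∫ x, (∑ j ∈ range N, f (shift (γ j) x)) ^ 2 ∂μ ≤
      8 * N * μ.real C + (8 * N + 8 * N ^ 2) * η := by
    intro η hη
    obtain ⟨C', hC', hlt⟩ := exists_measure_symmDiff_lt_of_generateFrom_isSetRing (μ := μ)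
      (isSetRing_good Γ) ⟨{Set.univ}, Set.countable_singleton _,
        Set.singleton_subset_iff.2 (univ_mem_good Γ), by simp⟩ (generateFrom_good Γ) hC
        (ε := ENNReal.ofReal η) (by simpa using hη)
    have hC'm : MeasurableSet C' := by
      rw [generateFrom_good Γ]
      exact MeasurableSpace.measurableSet_generateFrom hC'
    set δ : ℝ := μ.real (symmDiff C' C) with hδ
    have hδN : δ ≤ η := by
      rw [hδ, measureReal_def]
      exact ENNReal.toReal_le_of_le_ofReal (by positivity) hlt.le
    have hδ0 : 0 ≤ δ := measureReal_nonneg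
    set h : (Γ → Bool) → ℝ := fun x => C'.indicator (fun _ => (1 : ℝ)) x - μ.real C' with hh
    have hhm : Measurable h := (measurable_const.indicator hC'm).sub measurable_const
    have hhb : ∀ x, |h x| ≤ 1 := by
      intro x
      rw [abs_le]
      simp only [hh]
      constructor <;> linarith [(hind C' x).1, (hind C' x).2, (hre C').1, (hre C').2]
    have hV : h ∈ V Γ := (V Γ).sub_mem hC' (const_mem _)
    have h0 : ∫ x, h x ∂μ = 0 := by
      simp only [hh]
      rw [integral_sub ((integrable_const _).indicator hC'm) (integrable_const _),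
        integral_indicator_const _ hC'm, integral_const]
      simp
    have hb := bound_V γ hγ N h hV h0
    have hsd : MeasurableSet (symmDiff C' C) := hC'm.symmDiff hC
    have e2 : μ.real C' ≤ μ.real C + δ := by
      calc μ.real C' ≤ μ.real (C ∪ symmDiff C' C) := by
            refine measureReal_mono ?_ (measure_ne_top _ _)
            intro x hx
            by_cases hx' : x ∈ C
            · exact Or.inl hx'
            · exact Or.inr (Or.inl ⟨hx, hx'⟩)
        _ ≤ _ := measureReal_union_le _ _
    have e1 : μ.real C ≤ μ.real C' + δ := by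
      calc μ.real C ≤ μ.real (C' ∪ symmDiff C' C) := by
            refine measureReal_mono ?_ (measure_ne_top _ _)
            intro x hx
            by_cases hx' : x ∈ C'
            · exact Or.inl hx'
            · exact Or.inr (Or.inr ⟨hx, hx'⟩)
        _ ≤ _ := measureReal_union_le _ _
    have h4 : |μ.real C - μ.real C'| ≤ δ := by
      rw [abs_le]
      constructor <;> linarith
    have hh1 : ∫ x, h x ^ 2 ∂μ ≤ μ.real C + δ := by
      have h1 : ∀ x, h x ^ 2 = C'.indicator (fun _ => (1 : ℝ)) x * (1 - 2 * μ.real C') +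
          μ.real C' ^ 2 := by
        intro x
        simp only [hh]
        by_cases hx : x ∈ C'
        · simp only [Set.indicator_of_mem hx]; ring
        · simp only [Set.indicator_of_notMem hx]; ring
      simp_rw [h1]
      rw [integral_add (((integrable_const _).indicator hC'm).mul_const _) (integrable_const _),
        integral_mul_const, integral_indicator_const _ hC'm, integral_const]
      simp only [smul_eq_mul, mul_one, probReal_univ, one_mul]
      nlinarith [sq_nonneg (μ.real C')]
    -- the difference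
    set u : (Γ → Bool) → ℝ := fun x => f x - h x with hu
    have hum : Measurable u := hfm.sub hhm
    have hub : ∀ x, |u x| ≤ 2 := fun x => by
      simp only [hu]
      exact (abs_sub _ _).trans (by linarith [hfb x, hhb x])
    have husq : ∫ x, u x ^ 2 ∂μ ≤ 4 * δ := by
      have h1 : ∀ x, u x ^ 2 ≤ 2 * (symmDiff C' C).indicator (fun _ => (1 : ℝ)) x +
          2 * (μ.real C - μ.real C') ^ 2 := by
        intro x
        have h2 : (C.indicator (fun _ => (1 : ℝ)) x - C'.indicator (fun _ => (1 : ℝ)) x) ^ 2 =
            (symmDiff C' C).indicator (fun _ => (1 : ℝ)) x := by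
          by_cases hx : x ∈ C <;> by_cases hy : x ∈ C' <;>
            simp [hx, hy, Set.indicator, Set.mem_symmDiff]
        have h3 : u x = (C.indicator (fun _ => (1 : ℝ)) x - C'.indicator (fun _ => (1 : ℝ)) x) -
            (μ.real C - μ.real C') := by
          simp only [hu, hf, hh]
          ring
        rw [h3, ← h2]
        nlinarith [sq_nonneg ((C.indicator (fun _ => (1 : ℝ)) x -
          C'.indicator (fun _ => (1 : ℝ)) x) + (μ.real C - μ.real C'))]
      have h5 : (μ.real C - μ.real C') ^ 2 ≤ δ := by
        have h6 : |μ.real C - μ.real C'| ≤ 1 := by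
          rw [abs_le]
          constructor <;> linarith [(hre C).1, (hre C).2, (hre C').1, (hre C').2]
        rw [← sq_abs]
        nlinarith [abs_nonneg (μ.real C - μ.real C')]
      calc ∫ x, u x ^ 2 ∂μ ≤ ∫ x, (2 * (symmDiff C' C).indicator (fun _ => (1 : ℝ)) x +
            2 * (μ.real C - μ.real C') ^ 2) ∂μ := by
            refine integral_mono_of_nonneg (Filter.Eventually.of_forall fun x => sq_nonneg _) ?_
              (Filter.Eventually.of_forall h1)
            exact (((integrable_const _).indicator hsd).const_mul _).add (integrable_const _)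
        _ = 2 * δ + 2 * (μ.real C - μ.real C') ^ 2 := by
            rw [integral_add (((integrable_const _).indicator hsd).const_mul _)
              (integrable_const _), integral_const_mul, integral_indicator_const _ hsd,
              integral_const]
            simp [hδ]
        _ ≤ 4 * δ := by linarith
    have hSu : ∫ x, (∑ j ∈ range N, u (shift (γ j) x)) ^ 2 ∂μ ≤ 4 * N ^ 2 * δ := by
      have h1 : ∀ x, (∑ j ∈ range N, u (shift (γ j) x)) ^ 2 ≤
          N * ∑ j ∈ range N, u (shift (γ j) x) ^ 2 := by
        intro x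
        have := sq_sum_le_card_mul_sum_sq (s := range N) (f := fun j => u (shift (γ j) x))
        simpa using this
      have hint : ∀ j, Integrable (fun x => u (shift (γ j) x) ^ 2) μ := by
        intro j
        refine Integrable.of_bound
          ((hum.comp (measurable_shift _)).pow_const 2).aestronglyMeasurable 4
          (Filter.Eventually.of_forall fun x => ?_)
        rw [Real.norm_eq_abs, abs_of_nonneg (sq_nonneg _), ← sq_abs]
        nlinarith [hub (shift (γ j) x), abs_nonneg (u (shift (γ j) x))]
      have hinv : ∀ j, ∫ x, u (shift (γ j) x) ^ 2 ∂μ = ∫ x, u x ^ 2 ∂μ := by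
        intro j
        have h2 := (measurePreserving_shift (γ j)).map_eq
        conv_rhs => rw [hμ, ← h2]
        rw [integral_map (measurable_shift _).aemeasurable (hum.pow_const 2).aestronglyMeasurable]
      calc ∫ x, (∑ j ∈ range N, u (shift (γ j) x)) ^ 2 ∂μ
          ≤ ∫ x, N * ∑ j ∈ range N, u (shift (γ j) x) ^ 2 ∂μ := by
            refine integral_mono_of_nonneg (Filter.Eventually.of_forall fun x => sq_nonneg _) ?_
              (Filter.Eventually.of_forall h1)
            exact (integrable_finsetSum _ fun j _ => hint j).const_mul _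
        _ = N * (N * ∫ x, u x ^ 2 ∂μ) := by
            rw [integral_const_mul, integral_finsetSum _ fun j _ => hint j]
            simp_rw [hinv]
            simp
        _ ≤ N * (N * (4 * δ)) := by
            gcongr
        _ = 4 * N ^ 2 * δ := by ring
    have hbS : ∀ (w : (Γ → Bool) → ℝ) (b : ℝ), 0 ≤ b → Measurable w → (∀ x, |w x| ≤ b) →
        Integrable (fun x => (∑ j ∈ range N, w (shift (γ j) x)) ^ 2) μ := by
      intro w b hb0 hw hwb
      refine Integrable.of_bound ((Finset.measurable_sum _ fun j _ =>
        hw.comp (measurable_shift (γ j))).pow_const 2).aestronglyMeasurable ((N * b) ^ 2)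
        (Filter.Eventually.of_forall fun x => ?_)
      rw [Real.norm_eq_abs, abs_of_nonneg (sq_nonneg _), ← sq_abs]
      refine pow_le_pow_left₀ (abs_nonneg _) ?_ 2
      calc |∑ j ∈ range N, w (shift (γ j) x)| ≤ ∑ j ∈ range N, |w (shift (γ j) x)| :=
            abs_sum_le_sum_abs _ _
        _ ≤ ∑ _j ∈ range N, b := sum_le_sum fun j _ => hwb _
        _ = N * b := by simp
    calc ∫ x, (∑ j ∈ range N, f (shift (γ j) x)) ^ 2 ∂μ
        ≤ ∫ x, (2 * (∑ j ∈ range N, h (shift (γ j) x)) ^ 2 +
            2 * (∑ j ∈ range N, u (shift (γ j) x)) ^ 2) ∂μ := by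
          refine integral_mono_of_nonneg (Filter.Eventually.of_forall fun x => sq_nonneg _)
            (((hbS h 1 zero_le_one hhm hhb).const_mul _).add
              ((hbS u 2 zero_le_two hum hub).const_mul _))
            (Filter.Eventually.of_forall fun x => ?_)
          have e : ∑ j ∈ range N, f (shift (γ j) x) = ∑ j ∈ range N, h (shift (γ j) x) +
              ∑ j ∈ range N, u (shift (γ j) x) := by
            rw [← sum_add_distrib]
            exact sum_congr rfl fun j _ => by simp only [hu]; ring
          simp only [e]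
          nlinarith [sq_nonneg (∑ j ∈ range N, h (shift (γ j) x) -
              ∑ j ∈ range N, u (shift (γ j) x))]
      _ = 2 * ∫ x, (∑ j ∈ range N, h (shift (γ j) x)) ^ 2 ∂μ +
            2 * ∫ x, (∑ j ∈ range N, u (shift (γ j) x)) ^ 2 ∂μ := by
          rw [integral_add ((hbS h 1 zero_le_one hhm hhb).const_mul _)
              ((hbS u 2 zero_le_two hum hub).const_mul _), integral_const_mul, integral_const_mul]
      _ ≤ 2 * (4 * N * (μ.real C + δ)) + 2 * (4 * N ^ 2 * δ) := by
          gcongr
          exact hb.trans (by gcongr)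
      _ = 8 * N * μ.real C + (8 * N + 8 * N ^ 2) * δ := by ring
      _ ≤ 8 * N * μ.real C + (8 * N + 8 * N ^ 2) * η := by gcongr
  refine le_of_forall_pos_le_add fun ε hε => ?_
  have hA : (0 : ℝ) < 8 * N + 8 * N ^ 2 + 1 := by positivity
  refine (key (ε / (8 * N + 8 * N ^ 2 + 1)) (by positivity)).trans ?_
  have h1 : (8 * (N : ℝ) + 8 * N ^ 2) * (ε / (8 * N + 8 * N ^ 2 + 1)) ≤ ε := by
    rw [mul_div_assoc', div_le_iff₀ hA]
    nlinarith
  linarith

theorem var : VAR_S := by
  classical
  intro Γ _ _ γ hγ B hB N hN θ hθ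
  set μ := coinPi Γ with hμ
  have hNr : (0 : ℝ) < N := Nat.cast_pos.2 hN
  set β := μ.real B with hβ
  have hβ0 : 0 ≤ β := measureReal_nonneg
  have hv := variance_scaled Γ γ hγ B hB N
  rw [← hμ, ← hβ] at hv
  set F : (Γ → Bool) → ℝ := fun x => (∑ j ∈ range N, (B.indicator (fun _ => (1 : ℝ))
    (shift (γ j) x) - β)) ^ 2 with hF
  have hsum : ∀ x, ∑ j ∈ range N, (B.indicator (fun _ => (1 : ℝ)) (shift (γ j) x) - β) =
      (cnt N (fun j => shift (γ j) x ∈ B) : ℝ) - N * β := by
    intro x
    rw [sum_sub_distrib]
    simp only [sum_const, card_range, nsmul_eq_mul]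
    congr 1
    unfold cnt
    rw [card_filter, Nat.cast_sum]
    refine sum_congr rfl fun j _ => ?_
    by_cases hx : shift (γ j) x ∈ B <;> simp [hx]
  have hpos : 0 < N ^ 2 * (θ - β) ^ 2 := by
    have : 0 < θ - β := by linarith
    positivity
  have hind' : ∀ x : Γ → Bool, 0 ≤ B.indicator (fun _ => (1 : ℝ)) x ∧
      B.indicator (fun _ => (1 : ℝ)) x ≤ 1 := by
    intro x
    by_cases hx : x ∈ B <;> simp [hx]
  have hFint : Integrable F μ := by
    refine Integrable.of_bound (C := (N * (1 + β)) ^ 2) ?_ (Filter.Eventually.of_forall fun x => ?_)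
    · refine (Measurable.pow_const (Finset.measurable_sum _ fun j _ => ?_) 2).aestronglyMeasurable
      exact ((measurable_const.indicator hB).comp (measurable_shift (γ j))).sub measurable_const
    · simp only [hF]
      rw [Real.norm_eq_abs, abs_of_nonneg (sq_nonneg _), ← sq_abs]
      refine pow_le_pow_left₀ (abs_nonneg _) ?_ 2
      calc |∑ j ∈ range N, (B.indicator (fun _ => (1 : ℝ)) (shift (γ j) x) - β)|
          ≤ ∑ j ∈ range N, |B.indicator (fun _ => (1 : ℝ)) (shift (γ j) x) - β| :=
            abs_sum_le_sum_abs _ _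
        _ ≤ ∑ _j ∈ range N, (1 + β) := by
            refine sum_le_sum fun j _ => ?_
            have h1 := hind' (shift (γ j) x)
            rw [abs_le]
            constructor <;> linarith [h1.1, h1.2]
        _ = N * (1 + β) := by rw [sum_const, card_range, nsmul_eq_mul]
  have hM := mul_meas_ge_le_integral_of_nonneg (μ := μ) (f := F)
    (Filter.Eventually.of_forall fun x => sq_nonneg _) hFint (N ^ 2 * (θ - β) ^ 2)
  have hsub : μ.real {x | θ * N ≤ cnt N (fun j => shift (γ j) x ∈ B)} ≤
      μ.real {x | N ^ 2 * (θ - β) ^ 2 ≤ F x} := by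
    refine measureReal_mono ?_ (measure_ne_top _ _)
    intro x hx
    simp only [Set.mem_ofPred_eq] at hx ⊢
    simp only [hF]
    rw [hsum, ← mul_pow]
    have h1 : N * (θ - β) ≤ (cnt N (fun j => shift (γ j) x ∈ B) : ℝ) - N * β := by
      have : θ * N ≤ (cnt N (fun j => shift (γ j) x ∈ B) : ℝ) := hx
      linarith
    exact pow_le_pow_left₀ (by have : 0 < θ - β := by linarith
                               positivity) h1 2
  refine hsub.trans ?_
  have hpos2 : 0 < N * (θ - β) ^ 2 := by
    have : 0 < θ - β := by linarith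
    positivity
  rw [le_div_iff₀ hpos2]
  have h2 : N ^ 2 * (θ - β) ^ 2 * μ.real {x | N ^ 2 * (θ - β) ^ 2 ≤ F x} ≤ 8 * N * β :=
    hM.trans hv
  have h3 : N * (μ.real {x | N ^ 2 * (θ - β) ^ 2 ≤ F x} * (N * (θ - β) ^ 2)) ≤ N * (8 * β) := by
    calc N * (μ.real {x | N ^ 2 * (θ - β) ^ 2 ≤ F x} * (N * (θ - β) ^ 2))
        = N ^ 2 * (θ - β) ^ 2 * μ.real {x | N ^ 2 * (θ - β) ^ 2 ≤ F x} := by ring
      _ ≤ 8 * N * β := h2
      _ = N * (8 * β) := by ring
  have h4 := le_of_mul_le_mul_left h3 hNr
  linarith

end Pool.Agent.Lib.MP_75b31c_lc.N40.H92
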